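import Mathlib
import Pool.Agent.X124.TorusExample

/-!
# MP_ad5f6c_nt, Q1: the answer is yes

`m = 2`, `n = 1`. With `Q_k = 2^(3^k)`, `α = ∑ 1/Q_k`, `δ_k = Q_k α - p_k` (`p_k` the nearest
integer) and `β = ∑ δ_k` the vector `A = (α, β)` is non-singular and all points `(0, t)`, `t ≠ 0`,
of the torus are badly approximable targets for `A`.  So the Haar measure of the circle `{0} × 𝕋`
gives full measure to `Bad_A`.
-/

namespace Pool.Agent.Results.MP_ad5f6c_nt.CodimensionOne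

open MeasureTheory Pool.Agent.X124.TorusDefs Pool.Agent.X124.TorusExample

/-- **The answer to Q1 is yes.**  There are `m ≥ 2`, `n ≥ 1`, a non-singular `m × n` matrix `A`
and an algebraic measure `μ` on `𝕋^m` of codimension `1` with `μ(Bad_A) > 0`; in fact `m = 2`,
`n = 1` and `μ(𝕋² ∖ Bad_A) = 0`. -/
theorem result :
    (∃ (A : Matrix (Fin 2) (Fin 1) ℝ) (μ : Measure (Torus 2)) (x : Torus 2)
      (H : AddSubgroup (Torus 2)), ¬ Singular A ∧ IsSubtorus H 1 ∧ IsHaarOnCoset μ x H ∧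
        μ (Bad A)ᶜ = 0) ∧
    (∃ (m n : ℕ) (A : Matrix (Fin m) (Fin n) ℝ) (μ : Measure (Torus m)) (x : Torus m)
      (H : AddSubgroup (Torus m)), 2 ≤ m ∧ 1 ≤ n ∧ ¬ Singular A ∧ IsSubtorus H (m - 1) ∧
        IsHaarOnCoset μ x H ∧ 0 < μ (Bad A)) := by
  have h := haarAt_isHaar 0
  refine ⟨⟨A, haarAt 0, ![0, 0], vert, nonsingular, vert_subtorus, h, haarAt_zero_bad⟩,
    2, 1, A, haarAt 0, ![0, 0], vert, le_rfl, le_rfl, nonsingular, vert_subtorus, h, ?_⟩
  have hp := h.prob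
  by_contra h0
  have h1 : haarAt 0 (Bad A) = 0 := le_antisymm (not_lt.1 h0) zero_le
  have h2 : haarAt 0 Set.univ ≤ haarAt 0 (Bad A) + haarAt 0 (Bad A)ᶜ := by
    rw [← Set.union_compl_self (Bad A)]
    exact measure_union_le _ _
  rw [h1, haarAt_zero_bad, hp.measure_univ, add_zero] at h2
  exact absurd h2 (by simp)

end Pool.Agent.Results.MP_ad5f6c_nt.CodimensionOne
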